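import Mathlib

/-!
# Part ARI: groups of odd order, pure arithmetic
-/

set_option autoImplicit false

namespace Pool.Agent.Y65.PAR

universe u

theorem sub_pow (G : Type u) [Group G] [Finite G] (p k : ℕ) (hp : p.Prime)
    (h : p ^ k ∣ Nat.card G) : ∃ H : Subgroup G, Nat.card H = p ^ k := by
  haveI := Fact.mk hp
  exact Sylow.exists_subgroup_card_pow_prime p h

theorem prime_cases {p : ℕ} (hp : p.Prime) (h : p < 7) (h2 : p ≠ 2) : p = 3 ∨ p = 5 := by
  interval_cases p
  · exact absurd hp (by norm_num)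
  · exact absurd hp (by norm_num)
  · exact absurd rfl h2
  · exact Or.inl rfl
  · exact absurd hp (by norm_num)
  · exact Or.inr rfl
  · exact absurd hp (by norm_num)

theorem num (n : ℕ) (hodd : Odd n) (h7 : ∀ p : ℕ, p.Prime → p ∣ n → p < 7) (h9 : ¬ 9 ∣ n)
    (h25 : ¬ 25 ∣ n) : n ∣ 15 := by
  have hc : ∀ p : ℕ, p.Prime → p ∣ n → p = 3 ∨ p = 5 := fun p hp hd =>
    prime_cases hp (h7 p hp hd) (by
      rintro rfl
      exact (Nat.not_even_iff_odd.2 hodd) (even_iff_two_dvd.2 hd))
  have hs : Squarefree n := by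
    rw [Nat.squarefree_iff_prime_squarefree]
    intro p hp hd
    rcases hc p hp (dvd_trans (dvd_mul_right p p) hd) with rfl | rfl
    · exact h9 hd
    · exact h25 hd
  have hsub : n.primeFactors ⊆ ({3, 5} : Finset ℕ) := by
    intro p hp
    rw [Nat.mem_primeFactors] at hp
    rcases hc p hp.1 hp.2.1 with rfl | rfl <;> simp
  have h1 := Finset.prod_dvd_prod_of_subset _ _ (fun p : ℕ => p) hsub
  rw [Nat.prod_primeFactors_of_squarefree hs] at h1
  simpa using h1

theorem t_ARI (G : Type u) [Group G] [Finite G] (hodd : Odd (Nat.card G)) (h1 : Nat.card G ≠ 1)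
    (h3 : Nat.card G ≠ 3) (h5 : Nat.card G ≠ 5) :
    (∃ p : ℕ, p.Prime ∧ 7 ≤ p ∧ ∃ H : Subgroup G, Nat.card H = p) ∨
      (∃ H : Subgroup G, Nat.card H = 9) ∨ (∃ H : Subgroup G, Nat.card H = 25) ∨
      Nat.card G = 15 := by
  by_cases h7 : ∀ p : ℕ, p.Prime → p ∣ Nat.card G → p < 7
  · right
    by_cases h9 : 9 ∣ Nat.card G
    · left
      exact sub_pow G 3 2 Nat.prime_three h9
    right
    by_cases h25 : 25 ∣ Nat.card G
    · left
      exact sub_pow G 5 2 Nat.prime_five h25
    right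
    have h := num _ hodd h7 h9 h25
    have hm : Nat.card G ∈ Nat.divisors 15 := Nat.mem_divisors.2 ⟨h, by norm_num⟩
    have hd : Nat.divisors 15 = {1, 3, 5, 15} := by decide
    rw [hd] at hm
    simp only [Finset.mem_insert, Finset.mem_singleton] at hm
    tauto
  · left
    push Not at h7
    obtain ⟨p, hp, hd, h⟩ := h7
    obtain ⟨H, hH⟩ := sub_pow G p 1 hp (by rwa [pow_one])
    exact ⟨p, hp, h, H, by rw [hH, pow_one]⟩

theorem t_ARI2 (H : Type u) [Group H] [Finite H] (h : Nat.card H = 25 ∨ Nat.card H = 15) :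
    ∃ N : Subgroup H, N.Normal ∧ Nat.card N = 5 ∧ N ≠ ⊤ ∧ Odd (Nat.card (H ⧸ N)) := by
  obtain ⟨N, hN⟩ := sub_pow H 5 1 Nat.prime_five (by rcases h with h | h <;> rw [h] <;> norm_num)
  rw [pow_one] at hN
  have hi : 5 * N.index = Nat.card H := by
    have := N.card_mul_index
    rwa [hN] at this
  have hq : Nat.card (H ⧸ N) = N.index := rfl
  have hidx : N.index = (Nat.card H).minFac ∧ Odd N.index := by
    rcases h with h | h
    · have e : N.index = 5 := by omega
      rw [e, h]
      exact ⟨by norm_num, by decide⟩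
    · have e : N.index = 3 := by omega
      rw [e, h]
      exact ⟨by norm_num, by decide⟩
  refine ⟨N, Subgroup.normal_of_index_eq_minFac_card hidx.1, hN, ?_, by rw [hq]; exact hidx.2⟩
  rintro rfl
  rw [Subgroup.card_top] at hN
  omega

end Pool.Agent.Y65.PAR
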